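import Mathlib

/-!
# Bounded numerical ranges of quaternion matrices for nonstandard involutions
-/

set_option autoImplicit false

namespace Pool.Agent.Results.MP_dceaed_al.BoundedRange

open Quaternion

section defs

/-- Nonstandard involutions of the quaternions. -/
structure IsNonstandard (φ : ℍ[ℝ] →ₗ[ℝ] ℍ[ℝ]) : Prop where
  mul : ∀ x y, φ (x * y) = φ y * φ x
  invol : ∀ x, φ (φ x) = x
  ne_star : ∃ x, φ x ≠ star x

/-- `x_φ A y`. -/
noncomputable def form {n : ℕ} (φ : ℍ[ℝ] → ℍ[ℝ]) (A : Matrix (Fin n) (Fin n) ℍ[ℝ])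
    (x y : Fin n → ℍ[ℝ]) : ℍ[ℝ] := ∑ i, ∑ j, φ (x i) * A i j * y j

/-- The `φ`-numerical range of `A` for `α`. -/
def W {n : ℕ} (φ : ℍ[ℝ] → ℍ[ℝ]) (α : ℍ[ℝ]) (A : Matrix (Fin n) (Fin n) ℍ[ℝ]) : Set ℍ[ℝ] :=
  {w | ∃ x : Fin n → ℍ[ℝ], ∑ i, φ (x i) * x i = α ∧ w = form φ A x x}

end defs

section phi0

/-- The involution that only changes the sign of `i`. -/
def φ₀ (x : ℍ[ℝ]) : ℍ[ℝ] := ⟨x.re, -x.imI, x.imJ, x.imK⟩

@[simp] theorem φ₀_re (x : ℍ[ℝ]) : (φ₀ x).re = x.re := rfl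
@[simp] theorem φ₀_imI (x : ℍ[ℝ]) : (φ₀ x).imI = -x.imI := rfl
@[simp] theorem φ₀_imJ (x : ℍ[ℝ]) : (φ₀ x).imJ = x.imJ := rfl
@[simp] theorem φ₀_imK (x : ℍ[ℝ]) : (φ₀ x).imK = x.imK := rfl

theorem φ₀_mul (x y : ℍ[ℝ]) : φ₀ (x * y) = φ₀ y * φ₀ x := by
  ext <;> simp <;> ring

theorem φ₀_add (x y : ℍ[ℝ]) : φ₀ (x + y) = φ₀ x + φ₀ y := by
  ext <;> simp; ring

theorem φ₀_smul (r : ℝ) (x : ℍ[ℝ]) : φ₀ (r • x) = r • φ₀ x := by
  ext <;> simp

variable {n : ℕ}

theorem form_add_left (A : Matrix (Fin n) (Fin n) ℍ[ℝ]) (x x' y : Fin n → ℍ[ℝ]) :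
    form φ₀ A (x + x') y = form φ₀ A x y + form φ₀ A x' y := by
  simp only [form, Pi.add_apply, φ₀_add, add_mul, Finset.sum_add_distrib]

theorem form_add_right (A : Matrix (Fin n) (Fin n) ℍ[ℝ]) (x y y' : Fin n → ℍ[ℝ]) :
    form φ₀ A x (y + y') = form φ₀ A x y + form φ₀ A x y' := by
  simp only [form, Pi.add_apply, mul_add, Finset.sum_add_distrib]

theorem form_smul_left (A : Matrix (Fin n) (Fin n) ℍ[ℝ]) (r : ℝ) (x y : Fin n → ℍ[ℝ]) :
    form φ₀ A (r • x) y = r • form φ₀ A x y := by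
  simp only [form, Pi.smul_apply, φ₀_smul, smul_mul_assoc, Finset.smul_sum]

theorem form_smul_right (A : Matrix (Fin n) (Fin n) ℍ[ℝ]) (r : ℝ) (x y : Fin n → ℍ[ℝ]) :
    form φ₀ A x (r • y) = r • form φ₀ A x y := by
  simp only [form, Pi.smul_apply, mul_smul_comm, Finset.smul_sum]

theorem form_single (A : Matrix (Fin n) (Fin n) ℍ[ℝ]) (i j : Fin n) (a b : ℍ[ℝ]) :
    form φ₀ A (Pi.single i a) (Pi.single j b) = φ₀ a * A i j * b := by
  unfold form
  rw [Finset.sum_eq_single i, Finset.sum_eq_single j]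
  · simp
  · intro k _ hk
    rw [Pi.single_eq_of_ne hk, mul_zero]
  · simp
  · intro k _ hk
    have h0 : φ₀ 0 = 0 := by ext <;> simp
    simp [Pi.single_eq_of_ne hk, h0]
  · simp

theorem ip_eq (x : Fin n → ℍ[ℝ]) : ∑ i, φ₀ (x i) * x i = form φ₀ 1 x x := by
  unfold form
  refine Finset.sum_congr rfl fun i _ => ?_
  rw [Finset.sum_eq_single i]
  · simp
  · intro j _ hj
    simp [hj.symm]
  · simp

theorem form_right (A : Matrix (Fin n) (Fin n) ℍ[ℝ]) (x : Fin n → ℍ[ℝ]) (l : ℍ[ℝ]) :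
    form φ₀ A (fun i => x i * l) (fun i => x i * l) = φ₀ l * form φ₀ A x x * l := by
  simp only [form, φ₀_mul, Finset.mul_sum, Finset.sum_mul, mul_assoc]

theorem exists_root {α : ℍ[ℝ]} (hα : α.imI = 0) (h0 : α ≠ 0) :
    ∃ l : ℍ[ℝ], l ≠ 0 ∧ φ₀ l * l = α := by
  -- find a square root in `Inv φ₀`
  suffices h : ∃ l : ℍ[ℝ], l.imI = 0 ∧ l * l = α by
    obtain ⟨l, h1, h2⟩ := h
    refine ⟨l, ?_, ?_⟩
    · rintro rfl
      apply h0
      rw [← h2, mul_zero]
    · have : φ₀ l = l := by ext <;> simp [h1]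
      rw [this, h2]
  have hnn := norm_nonneg α
  have hn : ‖α‖ * ‖α‖ = α.re ^ 2 + α.imJ ^ 2 + α.imK ^ 2 := by
    have := Quaternion.normSq_eq_norm_mul_self α
    rw [← this, Quaternion.normSq_def', hα]
    ring
  by_cases h1 : α.re + ‖α‖ = 0
  · have h2 : α.re = -‖α‖ := by linarith
    have h3 : α.imJ ^ 2 + α.imK ^ 2 = 0 := by
      rw [h2] at hn
      nlinarith
    have h4 : α.imJ = 0 := by nlinarith [sq_nonneg α.imJ, sq_nonneg α.imK]
    have h5 : α.imK = 0 := by nlinarith [sq_nonneg α.imJ, sq_nonneg α.imK]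
    refine ⟨⟨0, 0, Real.sqrt ‖α‖, 0⟩, rfl, ?_⟩
    have hs := Real.mul_self_sqrt hnn
    ext
    · simp
      exact h2.symm
    · simp [hα]
    · simp [h4]
    · simp [h5]
  · have h2 : 0 < α.re + ‖α‖ := by
      have : -‖α‖ ≤ α.re := by
        nlinarith [sq_nonneg α.imJ, sq_nonneg α.imK, abs_nonneg α.re,
          abs_le_of_sq_le_sq' (show α.re ^ 2 ≤ ‖α‖ ^ 2 by nlinarith [sq_nonneg α.imJ, sq_nonneg α.imK]) hnn]
      exact lt_of_le_of_ne (by linarith) (Ne.symm h1)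
    set s := Real.sqrt (2 * (α.re + ‖α‖)) with hs
    have hs2 : s * s = 2 * (α.re + ‖α‖) := Real.mul_self_sqrt (by linarith)
    have hs0 : s ≠ 0 := by
      intro h
      rw [h] at hs2
      linarith
    refine ⟨⟨(α.re + ‖α‖) / s, 0, α.imJ / s, α.imK / s⟩, rfl, ?_⟩
    ext
    · simp
      field_simp
      nlinarith
    · simp [hα]
      ring
    · simp
      field_simp
      linear_combination (-α.imJ) * hs2
    · simp
      field_simp
      linear_combination (-α.imK) * hs2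

theorem sq_bound {K M : ℝ} (hK : 0 ≤ K) (h : ∀ t : ℝ, t ^ 2 * K ≤ M) : K = 0 := by
  by_contra hne
  have hK' : 0 < K := lt_of_le_of_ne hK (Ne.symm hne)
  have h1 := h ((|M| + 1) / K + 1)
  have h2 : 0 ≤ (|M| + 1) / K := by positivity
  have h3 : (|M| + 1) / K * K = |M| + 1 := by field_simp
  have h4 := le_abs_self M
  have h5 : (|M| + 1) / K ≤ ((|M| + 1) / K + 1) ^ 2 := by nlinarith
  have h6 := mul_le_mul_of_nonneg_right h5 hK
  linarith

/-- The growth lemma. -/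
theorem growth {p m r : ℍ[ℝ]} {c M : ℝ} (hc : 0 < c)
    (h : ∀ s t : ℝ, s ^ 2 - t ^ 2 = c → ‖s ^ 2 • p + (s * t) • m + t ^ 2 • r‖ ≤ M) :
    p + r = 0 ∧ m = 0 := by
  have key : ∀ t : ℝ, ∃ s : ℝ, s ^ 2 - t ^ 2 = c ∧ |t| ≤ |s| := by
    intro t
    refine ⟨Real.sqrt (c + t ^ 2), ?_, ?_⟩
    · rw [Real.sq_sqrt (by positivity)]; ring
    · rw [← Real.sqrt_sq_eq_abs, abs_of_nonneg (Real.sqrt_nonneg _)]
      exact Real.sqrt_le_sqrt (by linarith)
  constructor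
  · have h1 : ∀ t : ℝ, t ^ 2 * ‖p + r‖ ≤ M + c * ‖p‖ := by
      intro t
      obtain ⟨s, hs, -⟩ := key t
      have a1 := h s t hs
      have a2 := h s (-t) (by rw [neg_sq]; exact hs)
      have a3 : (2 : ℝ) • (t ^ 2 • (p + r)) = (s ^ 2 • p + (s * t) • m + t ^ 2 • r) +
          (s ^ 2 • p + (s * -t) • m + (-t) ^ 2 • r) - (2 * c) • p := by
        rw [← hs]; module
      have a4 : ‖(2 : ℝ) • (t ^ 2 • (p + r))‖ ≤ M + M + 2 * c * ‖p‖ := by
        rw [a3]
        refine (norm_sub_le _ _).trans (add_le_add ((norm_add_le _ _).trans (add_le_add a1 a2)) ?_)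
        rw [norm_smul, Real.norm_of_nonneg (by linarith)]
      rw [norm_smul, norm_smul, Real.norm_of_nonneg (by norm_num : (0 : ℝ) ≤ 2),
        Real.norm_of_nonneg (sq_nonneg t)] at a4
      linarith
    exact norm_eq_zero.mp (sq_bound (norm_nonneg _) h1)
  · have h1 : ∀ t : ℝ, t ^ 2 * ‖m‖ ≤ M := by
      intro t
      obtain ⟨s, hs, hst⟩ := key t
      have a1 := h s t hs
      have a2 := h s (-t) (by rw [neg_sq]; exact hs)
      have a3 : (2 : ℝ) • ((s * t) • m) = (s ^ 2 • p + (s * t) • m + t ^ 2 • r) -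
          (s ^ 2 • p + (s * -t) • m + (-t) ^ 2 • r) := by
        module
      have a4 : ‖(2 : ℝ) • ((s * t) • m)‖ ≤ M + M := by
        rw [a3]
        exact (norm_sub_le _ _).trans (add_le_add a1 a2)
      rw [norm_smul, norm_smul, Real.norm_of_nonneg (by norm_num : (0 : ℝ) ≤ 2), Real.norm_eq_abs,
        abs_mul] at a4
      have a5 : t ^ 2 ≤ |s| * |t| := by
        rw [← sq_abs, pow_two]
        exact mul_le_mul_of_nonneg_right hst (abs_nonneg _)
      have a6 := mul_le_mul_of_nonneg_right a5 (norm_nonneg m)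
      linarith
    exact norm_eq_zero.mp (sq_bound (norm_nonneg _) h1)

/-- If the numerical range is bounded, then the form of `A` vanishes on isotropic vectors. -/
theorem isotropic (A : Matrix (Fin n) (Fin n) ℍ[ℝ]) {α : ℍ[ℝ]} (hα : α.imI = 0) (h0 : α ≠ 0)
    (hb : Bornology.IsBounded (W φ₀ α A)) {c : ℝ} (hc : 0 < c) (a b : Fin n → ℍ[ℝ])
    (ha : form φ₀ 1 a a = (c : ℝ) • 1) (hbb : form φ₀ 1 b b = -((c : ℝ) • 1))
    (hab : form φ₀ 1 a b + form φ₀ 1 b a = 0) :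
    form φ₀ A a a + form φ₀ A b b = 0 ∧ form φ₀ A a b + form φ₀ A b a = 0 := by
  obtain ⟨l, hl, hlα⟩ := exists_root hα h0
  obtain ⟨M, hM⟩ := isBounded_iff_forall_norm_le.mp hb
  have hexp : ∀ (B : Matrix (Fin n) (Fin n) ℍ[ℝ]) (s t : ℝ),
      form φ₀ B (s • a + t • b) (s • a + t • b) = s ^ 2 • form φ₀ B a a +
        (s * t) • (form φ₀ B a b + form φ₀ B b a) + t ^ 2 • form φ₀ B b b := by
    intro B s t
    simp only [form_add_left, form_add_right, form_smul_left, form_smul_right]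
    module
  have hφl : φ₀ l ≠ 0 := by
    intro h
    apply hl
    have e1 := congrArg QuaternionAlgebra.re h
    have e2 := congrArg QuaternionAlgebra.imI h
    have e3 := congrArg QuaternionAlgebra.imJ h
    have e4 := congrArg QuaternionAlgebra.imK h
    ext
    · simpa using e1
    · simpa using e2
    · simpa using e3
    · simpa using e4
  refine growth (c := c⁻¹) (M := ‖φ₀ l‖⁻¹ * M * ‖l‖⁻¹) (inv_pos.mpr hc) ?_
  intro s t hst
  rw [← hexp]
  have hin : form φ₀ A (fun i => (s • a + t • b) i * l) (fun i => (s • a + t • b) i * l) ∈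
      W φ₀ α A := by
    refine ⟨_, ?_, rfl⟩
    rw [ip_eq, form_right, hexp, ha, hbb, hab, ← hlα]
    have : s ^ 2 • c • (1 : ℍ[ℝ]) + (s * t) • (0 : ℍ[ℝ]) + t ^ 2 • -(c • (1 : ℍ[ℝ])) =
        ((s ^ 2 - t ^ 2) * c) • (1 : ℍ[ℝ]) := by module
    rw [this, hst, inv_mul_cancel₀ hc.ne', one_smul, mul_one]
  have h1 := hM _ hin
  rw [form_right] at h1
  set w := form φ₀ A (s • a + t • b) (s • a + t • b) with hw
  have h2 : w = (φ₀ l)⁻¹ * (φ₀ l * w * l) * l⁻¹ := by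
    rw [mul_assoc (φ₀ l), ← mul_assoc (φ₀ l)⁻¹, inv_mul_cancel₀ hφl, one_mul, mul_assoc,
      mul_inv_cancel₀ hl, mul_one]
  rw [h2, norm_mul, norm_mul, norm_inv, norm_inv]
  gcongr

/-- The unit `j`. -/
def qj : ℍ[ℝ] := ⟨0, 0, 1, 0⟩
/-- The unit `k`. -/
def qk : ℍ[ℝ] := ⟨0, 0, 0, 1⟩
/-- The unit `i`. -/
def qi : ℍ[ℝ] := ⟨0, 1, 0, 0⟩

@[simp] theorem qj_re : qj.re = 0 := rfl
@[simp] theorem qj_imI : qj.imI = 0 := rfl
@[simp] theorem qj_imJ : qj.imJ = 1 := rfl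
@[simp] theorem qj_imK : qj.imK = 0 := rfl
@[simp] theorem qk_re : qk.re = 0 := rfl
@[simp] theorem qk_imI : qk.imI = 0 := rfl
@[simp] theorem qk_imJ : qk.imJ = 0 := rfl
@[simp] theorem qk_imK : qk.imK = 1 := rfl
@[simp] theorem qi_re : qi.re = 0 := rfl
@[simp] theorem qi_imI : qi.imI = 1 := rfl
@[simp] theorem qi_imJ : qi.imJ = 0 := rfl
@[simp] theorem qi_imK : qi.imK = 0 := rfl

theorem φ₀_one : φ₀ 1 = 1 := by ext <;> simp
theorem φ₀_qj : φ₀ qj = qj := by ext <;> simp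
theorem φ₀_qk : φ₀ qk = qk := by ext <;> simp
theorem φ₀_qi : φ₀ qi = -qi := by ext <;> simp

section pairs

variable (A : Matrix (Fin n) (Fin n) ℍ[ℝ]) {α : ℍ[ℝ]} (hα : α.imI = 0) (h0 : α ≠ 0)
    (hb : Bornology.IsBounded (W φ₀ α A))

include hα h0 hb

theorem pair_u {u : ℍ[ℝ]} (hu : φ₀ u = u) (hu2 : u * u = -1) {i j : Fin n} (hij : i ≠ j) :
    A i i + u * A j j * u = 0 ∧ A i j * u + u * A j i = 0 := by
  have h := isotropic A hα h0 hb (c := 1) one_pos (Pi.single i 1) (Pi.single j u)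
    (by rw [form_single]; simp [φ₀_one])
    (by rw [form_single]; simp [hu, hu2])
    (by rw [form_single, form_single]; simp [hij, hij.symm])
  simp only [form_single, φ₀_one, hu, one_mul, mul_one] at h
  exact h

theorem diag_rel {i j : Fin n} (hij : i ≠ j) :
    (A i i).re = (A j j).re ∧ (A i i).imI = -(A j j).imI ∧ (A i i).imJ = 0 ∧ (A i i).imK = 0 := by
  have hj2 : qj * qj = -1 := by ext <;> simp
  have hk2 : qk * qk = -1 := by ext <;> simp
  have h1 := (pair_u A hα h0 hb φ₀_qj hj2 hij).1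
  have h2 := (pair_u A hα h0 hb φ₀_qk hk2 hij).1
  have a1 := congrArg QuaternionAlgebra.re h1
  have a2 := congrArg QuaternionAlgebra.imI h1
  have a3 := congrArg QuaternionAlgebra.imJ h1
  have a4 := congrArg QuaternionAlgebra.imK h1
  have b3 := congrArg QuaternionAlgebra.imJ h2
  have b4 := congrArg QuaternionAlgebra.imK h2
  simp at a1 a2 a3 a4 b3 b4
  refine ⟨?_, ?_, ?_, ?_⟩ <;> linarith

theorem off_rel {i j : Fin n} (hij : i ≠ j) :
    (A i j).re = -(A j i).re ∧ (A i j).imI = (A j i).imI ∧ (A i j).imJ = 0 ∧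
      (A i j).imK = 0 := by
  have hj2 : qj * qj = -1 := by ext <;> simp
  have hk2 : qk * qk = -1 := by ext <;> simp
  have h1 := (pair_u A hα h0 hb φ₀_qj hj2 hij).2
  have h2 := (pair_u A hα h0 hb φ₀_qk hk2 hij).2
  have a1 := congrArg QuaternionAlgebra.re h1
  have a2 := congrArg QuaternionAlgebra.imI h1
  have a3 := congrArg QuaternionAlgebra.imJ h1
  have a4 := congrArg QuaternionAlgebra.imK h1
  have b1 := congrArg QuaternionAlgebra.re h2
  have b2 := congrArg QuaternionAlgebra.imI h2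
  have b3 := congrArg QuaternionAlgebra.imJ h2
  have b4 := congrArg QuaternionAlgebra.imK h2
  simp at a1 a2 a3 a4 b1 b2 b3 b4
  refine ⟨?_, ?_, ?_, ?_⟩ <;> linarith

theorem off_zero {i j l : Fin n} (hij : i ≠ j) (hil : i ≠ l) (hjl : j ≠ l) : A i j = 0 := by
  have hj2 : qj * qj = -1 := by ext <;> simp
  have e2 : Real.sqrt 2 * Real.sqrt 2 = 2 := Real.mul_self_sqrt (by norm_num)
  have hjj : φ₀ (Real.sqrt 2 • qj) = Real.sqrt 2 • qj := by rw [φ₀_smul, φ₀_qj]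
  have hb2 : form φ₀ 1 (Pi.single l (Real.sqrt 2 • qj)) (Pi.single l (Real.sqrt 2 • qj)) =
      -((2 : ℝ) • (1 : ℍ[ℝ])) := by
    rw [form_single, hjj]
    simp only [Matrix.one_apply_eq, mul_one, smul_mul_assoc, mul_smul_comm, smul_smul, e2, hj2,
      smul_neg]
  have hA2 : form φ₀ A (Pi.single l (Real.sqrt 2 • qj)) (Pi.single l (Real.sqrt 2 • qj)) =
      (2 : ℝ) • (qj * A l l * qj) := by
    rw [form_single, hjj]
    simp only [smul_mul_assoc, mul_smul_comm, smul_smul, e2]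
  have p1 := (pair_u A hα h0 hb φ₀_qj hj2 hil).1
  have p2 := (pair_u A hα h0 hb φ₀_qj hj2 hjl).1
  have h1 := (isotropic A hα h0 hb (c := 2) two_pos (Pi.single i 1 + Pi.single j 1)
    (Pi.single l (Real.sqrt 2 • qj))
    (by
      simp only [form_add_left, form_add_right, form_single, φ₀_one]
      simp only [Matrix.one_apply_eq, Matrix.one_apply_ne hij, Matrix.one_apply_ne hij.symm]
      rw [two_smul]; noncomm_ring)
    hb2
    (by
      simp only [form_add_left, form_add_right, form_single]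
      simp only [Matrix.one_apply_ne hil, Matrix.one_apply_ne hil.symm, Matrix.one_apply_ne hjl,
        Matrix.one_apply_ne hjl.symm, mul_zero, zero_mul, add_zero])).1
  have h2 := (isotropic A hα h0 hb (c := 2) two_pos (Pi.single i 1 + Pi.single j qi)
    (Pi.single l (Real.sqrt 2 • qj))
    (by
      simp only [form_add_left, form_add_right, form_single, φ₀_one, φ₀_qi]
      simp only [Matrix.one_apply_eq, Matrix.one_apply_ne hij, Matrix.one_apply_ne hij.symm]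
      ext <;> simp
      norm_num)
    hb2
    (by
      simp only [form_add_left, form_add_right, form_single]
      simp only [Matrix.one_apply_ne hil, Matrix.one_apply_ne hil.symm, Matrix.one_apply_ne hjl,
        Matrix.one_apply_ne hjl.symm, mul_zero, zero_mul, add_zero])).1
  rw [hA2] at h1 h2
  simp only [form_add_left, form_add_right, form_single, φ₀_one, φ₀_qi, one_mul, mul_one] at h1 h2
  obtain ⟨r1, r2, r3, r4⟩ := off_rel A hα h0 hb hij
  obtain ⟨s1, s2, s3, s4⟩ := off_rel A hα h0 hb hij.symm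
  obtain ⟨d1, d2, d3, d4⟩ := diag_rel A hα h0 hb hij
  obtain ⟨f1, f2, f3, f4⟩ := diag_rel A hα h0 hb hij.symm
  obtain ⟨g1, g2, g3, g4⟩ := diag_rel A hα h0 hb hil
  obtain ⟨k1, k2, k3, k4⟩ := diag_rel A hα h0 hb hil.symm
  obtain ⟨m1, m2, m3, m4⟩ := diag_rel A hα h0 hb hjl
  have a1 := congrArg QuaternionAlgebra.re h1
  have a2 := congrArg QuaternionAlgebra.imI h1
  have b1 := congrArg QuaternionAlgebra.re h2
  have b2 := congrArg QuaternionAlgebra.imI h2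
  simp at a1 a2 b1 b2
  ext
  · simp; linarith
  · simp; linarith
  · simpa using r3
  · simpa using r4

theorem scalar_of_three {a b c : Fin n} (hab : a ≠ b) (hac : a ≠ c) (hbc : b ≠ c) :
    ∃ r : ℝ, A = r • (1 : Matrix (Fin n) (Fin n) ℍ[ℝ]) := by
  have third : ∀ i j : Fin n, ∃ l, i ≠ l ∧ j ≠ l := by
    intro i j
    by_contra hno
    push Not at hno
    have h1 := hno a
    have h2 := hno b
    have h3 := hno c
    by_cases e1 : i = a
    · have e2 : i ≠ b := fun h => hab (e1.symm.trans h)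
      have e3 : i ≠ c := fun h => hac (e1.symm.trans h)
      exact hbc ((h2 e2).symm.trans (h3 e3))
    · have e4 := h1 e1
      by_cases e2 : i = b
      · have e3 : i ≠ c := fun h => hbc (e2.symm.trans h)
        exact hac (e4.symm.trans (h3 e3))
      · exact hab (e4.symm.trans (h2 e2))
  have hoff : ∀ i j, i ≠ j → A i j = 0 := by
    intro i j hij
    obtain ⟨l, hil, hjl⟩ := third i j
    exact off_zero A hα h0 hb hij hil hjl
  refine ⟨(A a a).re, ?_⟩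
  ext1 i j
  by_cases hij : i = j
  · subst hij
    rw [Matrix.smul_apply, Matrix.one_apply_eq]
    obtain ⟨l, hil, -⟩ := third i i
    obtain ⟨m, him, hlm⟩ := third i l
    obtain ⟨d1, d2, d3, d4⟩ := diag_rel A hα h0 hb hil
    obtain ⟨f1, f2, f3, f4⟩ := diag_rel A hα h0 hb him
    obtain ⟨g1, g2, g3, g4⟩ := diag_rel A hα h0 hb hlm
    have hre : (A i i).re = (A a a).re := by
      by_cases hia : i = a
      · rw [hia]
      · exact (diag_rel A hα h0 hb hia).1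
    ext
    · simp [hre]
    · simp; linarith
    · simp [d3]
    · simp [d4]
  · rw [hoff i j hij, Matrix.smul_apply, Matrix.one_apply_ne hij, smul_zero]

end pairs

theorem bounded_smul_one (α : ℍ[ℝ]) (r : ℝ) :
    Bornology.IsBounded (W φ₀ α (r • (1 : Matrix (Fin n) (Fin n) ℍ[ℝ]))) := by
  refine isBounded_iff_forall_norm_le.mpr ⟨‖r • α‖, ?_⟩
  rintro w ⟨x, hx, rfl⟩
  rw [← hx, ip_eq]
  simp only [form, Matrix.smul_apply, smul_mul_assoc, mul_smul_comm, Finset.smul_sum, le_refl]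

theorem norm_φ₀ (x : ℍ[ℝ]) : ‖φ₀ x‖ = ‖x‖ := by
  have h1 := Quaternion.normSq_eq_norm_mul_self x
  have h2 := Quaternion.normSq_eq_norm_mul_self (φ₀ x)
  rw [Quaternion.normSq_def'] at h1 h2
  simp at h2
  have h3 : ‖φ₀ x‖ * ‖φ₀ x‖ = ‖x‖ * ‖x‖ := by rw [← h1, ← h2]
  nlinarith [norm_nonneg x, norm_nonneg (φ₀ x), mul_self_inj (norm_nonneg (φ₀ x)) (norm_nonneg x)]

theorem bounded_one (α : ℍ[ℝ]) (A : Matrix (Fin 1) (Fin 1) ℍ[ℝ]) :
    Bornology.IsBounded (W φ₀ α A) := by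
  refine isBounded_iff_forall_norm_le.mpr ⟨‖α‖ * ‖A 0 0‖, ?_⟩
  rintro w ⟨x, hx, rfl⟩
  simp only [form, Finset.univ_unique, Fin.default_eq_zero, Finset.sum_singleton] at hx ⊢
  rw [norm_mul, norm_mul, norm_φ₀, ← hx, norm_mul, norm_φ₀]
  apply le_of_eq
  ring

/-- The matrices of order two with bounded numerical range. -/
noncomputable def two (β : ℍ[ℝ]) (c₀ c₁ c₂ c₃ : ℝ) : Matrix (Fin 2) (Fin 2) ℍ[ℝ] :=
  !![c₀ • 1 + c₁ • β, -(c₂ • 1 + c₃ • β); c₂ • 1 - c₃ • β, c₀ • 1 - c₁ • β]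

theorem two_of_bounded (A : Matrix (Fin 2) (Fin 2) ℍ[ℝ]) {α : ℍ[ℝ]} (hα : α.imI = 0) (h0 : α ≠ 0)
    (hb : Bornology.IsBounded (W φ₀ α A)) : ∃ c₀ c₁ c₂ c₃ : ℝ, A = two qi c₀ c₁ c₂ c₃ := by
  have hij : (0 : Fin 2) ≠ 1 := by decide
  obtain ⟨r1, r2, r3, r4⟩ := off_rel A hα h0 hb hij
  obtain ⟨s1, s2, s3, s4⟩ := off_rel A hα h0 hb hij.symm
  obtain ⟨d1, d2, d3, d4⟩ := diag_rel A hα h0 hb hij
  obtain ⟨f1, f2, f3, f4⟩ := diag_rel A hα h0 hb hij.symm
  refine ⟨(A 0 0).re, (A 0 0).imI, (A 1 0).re, -(A 1 0).imI, ?_⟩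
  ext1 i j
  fin_cases i <;> fin_cases j
  · simp only [two, Fin.zero_eta, Matrix.of_apply, Matrix.cons_val', Matrix.cons_val_zero]
    ext <;> simp [d3, d4]
  · simp only [two, Fin.zero_eta, Fin.mk_one, Matrix.of_apply, Matrix.cons_val', Matrix.cons_val_zero,
      Matrix.cons_val_one]
    ext <;> simp [r1, r2, r3, r4]
  · simp only [two, Fin.zero_eta, Fin.mk_one, Matrix.of_apply, Matrix.cons_val', Matrix.cons_val_zero,
      Matrix.cons_val_one]
    ext <;> simp [s3, s4]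
  · simp only [two, Fin.mk_one, Matrix.of_apply, Matrix.cons_val', Matrix.cons_val_one]
    ext <;> simp [f3, f4, d1, d2]

/-- A multiple of `i`. -/
def imi (r : ℝ) : ℍ[ℝ] := ⟨0, r, 0, 0⟩

@[simp] theorem imi_re (r : ℝ) : (imi r).re = 0 := rfl
@[simp] theorem imi_imI (r : ℝ) : (imi r).imI = r := rfl
@[simp] theorem imi_imJ (r : ℝ) : (imi r).imJ = 0 := rfl
@[simp] theorem imi_imK (r : ℝ) : (imi r).imK = 0 := rfl

theorem norm_imi (r : ℝ) : ‖imi r‖ = |r| := by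
  have h1 := Quaternion.normSq_eq_norm_mul_self (imi r)
  rw [Quaternion.normSq_def'] at h1
  simp only [imi_re, imi_imI, imi_imJ, imi_imK, ne_eq, OfNat.ofNat_ne_zero, not_false_eq_true,
    zero_pow, zero_add, add_zero] at h1
  rw [← abs_of_nonneg (norm_nonneg (imi r)), ← sq_eq_sq_iff_abs_eq_abs, h1]
  ring

theorem bounded_two (α : ℍ[ℝ]) (c₀ c₁ c₂ c₃ : ℝ) :
    Bornology.IsBounded (W φ₀ α (two qi c₀ c₁ c₂ c₃)) := by
  refine isBounded_iff_forall_norm_le.mpr ⟨|c₀| * ‖α‖ + (|c₁| + |c₂| + |c₃|) * ‖α‖, ?_⟩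
  rintro w ⟨x, hx, rfl⟩
  set P : ℝ := ((x 0).re ^ 2 + (x 0).imI ^ 2 + (x 0).imJ ^ 2 + (x 0).imK ^ 2) -
    ((x 1).re ^ 2 + (x 1).imI ^ 2 + (x 1).imJ ^ 2 + (x 1).imK ^ 2) with hP
  set Q : ℝ := (x 0).re * (x 1).re + (x 0).imI * (x 1).imI + (x 0).imJ * (x 1).imJ +
    (x 0).imK * (x 1).imK with hQ
  set R : ℝ := (x 0).imI * (x 1).re - (x 0).re * (x 1).imI + (x 0).imK * (x 1).imJ -
    (x 0).imJ * (x 1).imK with hR
  have key : form φ₀ (two qi c₀ c₁ c₂ c₃) x x =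
      c₀ • α + imi (c₁ * P + 2 * (c₂ * R - c₃ * Q)) := by
    rw [← hx, hP, hQ, hR]
    simp only [form, Fin.sum_univ_two, two, Matrix.of_apply, Matrix.cons_val', Matrix.cons_val_zero,
      Matrix.cons_val_one]
    ext <;> simp <;> ring
  have hn : ‖α‖ * ‖α‖ = P ^ 2 + 4 * Q ^ 2 + 4 * R ^ 2 := by
    rw [← Quaternion.normSq_eq_norm_mul_self, Quaternion.normSq_def', ← hx, hP, hQ, hR]
    simp only [Fin.sum_univ_two]
    simp
    ring
  have hα := norm_nonneg α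
  have b1 : |P| ≤ ‖α‖ := abs_le_of_sq_le_sq (by nlinarith [sq_nonneg Q, sq_nonneg R]) hα
  have b2 : |2 * Q| ≤ ‖α‖ := abs_le_of_sq_le_sq (by nlinarith [sq_nonneg P, sq_nonneg R]) hα
  have b3 : |2 * R| ≤ ‖α‖ := abs_le_of_sq_le_sq (by nlinarith [sq_nonneg P, sq_nonneg Q]) hα
  rw [key]
  refine (norm_add_le _ _).trans ?_
  rw [norm_smul, Real.norm_eq_abs]
  gcongr
  rw [norm_imi]
  have e2 : c₁ * P + 2 * (c₂ * R - c₃ * Q) = c₁ * P + (c₂ * (2 * R) - c₃ * (2 * Q)) := by ring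
  rw [e2]
  calc |c₁ * P + (c₂ * (2 * R) - c₃ * (2 * Q))| ≤ |c₁ * P| + |c₂ * (2 * R) - c₃ * (2 * Q)| :=
        abs_add_le _ _
    _ ≤ |c₁ * P| + (|c₂ * (2 * R)| + |c₃ * (2 * Q)|) := by
        gcongr
        exact abs_sub _ _
    _ ≤ |c₁| * ‖α‖ + (|c₂| * ‖α‖ + |c₃| * ‖α‖) := by
        rw [abs_mul c₁, abs_mul c₂, abs_mul c₃]
        gcongr
    _ = (|c₁| + |c₂| + |c₃|) * ‖α‖ := by ring

end phi0

section general

variable {φ : ℍ[ℝ] →ₗ[ℝ] ℍ[ℝ]}

theorem φ_one (hφ : IsNonstandard φ) : φ 1 = 1 := by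
  have h1 : φ 1 = φ 1 * φ 1 := by
    conv_lhs => rw [← one_mul (1 : ℍ[ℝ]), hφ.mul]
  have h2 : φ 1 ≠ 0 := by
    intro h
    have := hφ.invol 1
    rw [h, map_zero] at this
    exact zero_ne_one this
  exact (mul_left_cancel₀ h2 (by rw [← h1, mul_one]) : φ 1 = 1)

theorem φ_coe (hφ : IsNonstandard φ) (r : ℝ) : φ (r • 1) = r • 1 := by
  rw [map_smul, φ_one hφ]

theorem sq_eq (x : ℍ[ℝ]) : x * x = (2 * x.re) • x - (‖x‖ * ‖x‖) • (1 : ℍ[ℝ]) := by
  rw [← Quaternion.normSq_eq_norm_mul_self, Quaternion.normSq_def']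
  ext <;> simp <;> ring

/-- `φ` preserves the real part. -/
theorem φ_re (hφ : IsNonstandard φ) (x : ℍ[ℝ]) : (φ x).re = x.re := by
  have pure : ∀ y : ℍ[ℝ], y.re = 0 → (φ y).re = 0 := by
    intro y hy
    have h1 := sq_eq y
    rw [hy, mul_zero, zero_smul, zero_sub] at h1
    have h2 : φ y * φ y = -((‖y‖ * ‖y‖) • (1 : ℍ[ℝ])) := by
      rw [← hφ.mul, h1, map_neg, φ_coe hφ]
    have e1 := congrArg QuaternionAlgebra.re h2
    have e2 := congrArg QuaternionAlgebra.imI h2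
    have e3 := congrArg QuaternionAlgebra.imJ h2
    have e4 := congrArg QuaternionAlgebra.imK h2
    simp at e1 e2 e3 e4
    by_contra hne
    have f2 : (φ y).imI = 0 := by
      have : (φ y).re * (φ y).imI = 0 := by linarith
      exact (mul_eq_zero.mp this).resolve_left hne
    have f3 : (φ y).imJ = 0 := by
      have : (φ y).re * (φ y).imJ = 0 := by linarith
      exact (mul_eq_zero.mp this).resolve_left hne
    have f4 : (φ y).imK = 0 := by
      have : (φ y).re * (φ y).imK = 0 := by linarith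
      exact (mul_eq_zero.mp this).resolve_left hne
    rw [f2, f3, f4] at e1
    have : 0 < (φ y).re * (φ y).re := mul_self_pos.mpr hne
    nlinarith [mul_self_nonneg ‖y‖]
  have h1 : x = x.re • 1 + (x - x.re • 1) := by abel
  have h2 := pure (x - x.re • 1) (by simp)
  rw [map_sub, φ_coe hφ] at h2
  simp at h2
  linarith

/-- There is a pure unit fixed by `φ`, and it anticommutes with any `β` negated by `φ`. -/
theorem exists_gamma (hφ : IsNonstandard φ) :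
    ∃ γ : ℍ[ℝ], γ * γ = -1 ∧ φ γ = γ ∧
      ∀ β : ℍ[ℝ], β * β = -1 → φ β = -β → β * γ = -(γ * β) := by
  obtain ⟨v₀, hv₀⟩ := hφ.ne_star
  set v := v₀ - v₀.re • (1 : ℍ[ℝ]) with hv
  set w := v + φ v with hw
  have hw0 : w ≠ 0 := by
    intro h
    apply hv₀
    have h1 : φ v = -v := by
      rw [eq_neg_iff_add_eq_zero, add_comm]; exact h
    have h2 : φ v₀ = v₀.re • 1 + φ v := by
      rw [hv, map_sub, φ_coe hφ]; abel
    rw [h2, h1, hv]
    ext <;> simp
  have hwre : w.re = 0 := by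
    have h1 : (φ v).re = v.re := φ_re hφ v
    have h2 : v.re = 0 := by simp [hv]
    have h3 : w.re = v.re + (φ v).re := by rw [hw]; rfl
    rw [h3, h1, h2, add_zero]
  have hφw : φ w = w := by
    rw [hw, map_add, hφ.invol, add_comm]
  have hn : ‖w‖ ≠ 0 := norm_ne_zero_iff.mpr hw0
  refine ⟨‖w‖⁻¹ • w, ?_, ?_, ?_⟩
  · rw [smul_mul_smul_comm, sq_eq w, hwre, mul_zero, zero_smul, zero_sub, smul_neg, smul_smul]
    have : ‖w‖⁻¹ * ‖w‖⁻¹ * (‖w‖ * ‖w‖) = 1 := by field_simp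
    rw [this, one_smul]
  · rw [map_smul, hφw]
  · intro β hβ hφβ
    have hβre : β.re = 0 := by
      have := φ_re hφ β
      rw [hφβ] at this
      simp at this
      linarith
    have h1 : β * w + w * β = (-2 * (β.imI * w.imI + β.imJ * w.imJ + β.imK * w.imK)) • 1 := by
      ext <;> simp [hβre, hwre] <;> ring
    have h2 : φ (β * w + w * β) = -(β * w + w * β) := by
      rw [map_add, hφ.mul, hφ.mul, hφβ, hφw]
      noncomm_ring
    rw [h1, φ_coe hφ, ← h1] at h2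
    have h3 : β * w + w * β = 0 := by
      have : (2 : ℝ) • (β * w + w * β) = 0 := by
        rw [two_smul]
        nth_rewrite 1 [h2]
        abel
      exact (smul_eq_zero.mp this).resolve_left (by norm_num)
    rw [mul_smul_comm, smul_mul_assoc, ← smul_neg]
    congr 1
    exact eq_neg_of_add_eq_zero_left h3

theorem exists_beta (hφ : IsNonstandard φ) : ∃ β : ℍ[ℝ], β * β = -1 ∧ φ β = -β := by
  obtain ⟨γ, hγ, hφγ, -⟩ := exists_gamma hφ
  -- a nonzero quaternion anticommuting with `γ`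
  have hex : ∃ z : ℍ[ℝ], γ * z - z * γ ≠ 0 := by
    by_contra hno
    push Not at hno
    have h1 := hno qi
    have h2 := hno qj
    have a1 := congrArg QuaternionAlgebra.imJ h1
    have a2 := congrArg QuaternionAlgebra.imK h1
    have a3 := congrArg QuaternionAlgebra.imK h2
    simp at a1 a2 a3
    have c1 : γ.imK = 0 := by linarith
    have c2 : γ.imJ = 0 := by linarith
    have c3 : γ.imI = 0 := by linarith
    have e1 := congrArg QuaternionAlgebra.re hγ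
    simp [c1, c2, c3] at e1
    nlinarith [mul_self_nonneg γ.re]
  obtain ⟨z, hz⟩ := hex
  set y := γ * z - z * γ with hy
  have hanti : ∀ u : ℍ[ℝ], γ * (γ * u - u * γ) = -((γ * u - u * γ) * γ) := by
    intro u
    have e1 : γ * (γ * u - u * γ) = (γ * γ) * u - γ * u * γ := by noncomm_ring
    have e2 : (γ * u - u * γ) * γ = γ * u * γ - u * (γ * γ) := by noncomm_ring
    rw [e1, e2, hγ]
    noncomm_ring
  have hy1 : γ * y = -(y * γ) := hanti z
  -- pure part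
  have hre : ∀ u : ℍ[ℝ], γ * u = -(u * γ) → u.re = 0 := by
    intro u hu
    have hγre : γ.re = 0 := by
      by_contra hne
      have e1 := congrArg QuaternionAlgebra.re hγ
      have e2 := congrArg QuaternionAlgebra.imI hγ
      have e3 := congrArg QuaternionAlgebra.imJ hγ
      have e4 := congrArg QuaternionAlgebra.imK hγ
      simp at e1 e2 e3 e4
      have f2 : γ.imI = 0 := (mul_eq_zero.mp (by linarith : γ.re * γ.imI = 0)).resolve_left hne
      have f3 : γ.imJ = 0 := (mul_eq_zero.mp (by linarith : γ.re * γ.imJ = 0)).resolve_left hne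
      have f4 : γ.imK = 0 := (mul_eq_zero.mp (by linarith : γ.re * γ.imK = 0)).resolve_left hne
      rw [f2, f3, f4] at e1
      nlinarith [mul_self_nonneg γ.re]
    have e1 := congrArg QuaternionAlgebra.re hγ
    have g2 := congrArg QuaternionAlgebra.imI hu
    have g3 := congrArg QuaternionAlgebra.imJ hu
    have g4 := congrArg QuaternionAlgebra.imK hu
    simp [hγre] at e1 g2 g3 g4
    by_contra hne
    have f2 : γ.imI = 0 := (mul_eq_zero.mp (by linarith : u.re * γ.imI = 0)).resolve_left hne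
    have f3 : γ.imJ = 0 := (mul_eq_zero.mp (by linarith : u.re * γ.imJ = 0)).resolve_left hne
    have f4 : γ.imK = 0 := (mul_eq_zero.mp (by linarith : u.re * γ.imK = 0)).resolve_left hne
    rw [f2, f3, f4] at e1
    norm_num at e1
  -- normalisation
  have hnorm : ∀ u : ℍ[ℝ], u ≠ 0 → u.re = 0 → φ u = -u → ∃ β : ℍ[ℝ], β * β = -1 ∧ φ β = -β := by
    intro u hu hure hφu
    have hn : ‖u‖ ≠ 0 := norm_ne_zero_iff.mpr hu
    refine ⟨‖u‖⁻¹ • u, ?_, ?_⟩
    · rw [smul_mul_smul_comm, sq_eq u, hure, mul_zero, zero_smul, zero_sub, smul_neg, smul_smul]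
      have : ‖u‖⁻¹ * ‖u‖⁻¹ * (‖u‖ * ‖u‖) = 1 := by field_simp
      rw [this, one_smul]
    · rw [map_smul, hφu, smul_neg]
  have hφy : γ * φ y = -(φ y * γ) := by
    have := congrArg φ hy1
    rw [hφ.mul, map_neg, hφ.mul, hφγ] at this
    rw [this, neg_neg]
  by_cases hm : y - φ y = 0
  · -- `y` is fixed: use `γ * y`
    have hfix : φ y = y := (sub_eq_zero.mp hm).symm
    have hγ0 : γ ≠ 0 := by
      rintro rfl
      rw [mul_zero] at hγ
      exact zero_ne_one (neg_eq_zero.mp hγ.symm).symm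
    have hgy : γ * (γ * y) = -(γ * y * γ) := by
      rw [mul_assoc γ y γ, hy1, mul_neg]
    refine hnorm (γ * y) (mul_ne_zero hγ0 hz) (hre _ hgy) ?_
    rw [hφ.mul, hφγ, hfix, hy1, neg_neg]
  · refine hnorm (y - φ y) hm (hre _ ?_) ?_
    · rw [mul_sub, sub_mul, hy1, hφy]; abel
    · rw [map_sub, hφ.invol]; abel

/-- The automorphism attached to a pair of anticommuting units. -/
noncomputable def basisOf {β γ : ℍ[ℝ]} (hβ : β * β = -1) (hγ : γ * γ = -1)
    (hβγ : β * γ = -(γ * β)) : QuaternionAlgebra.Basis ℍ[ℝ] (-1 : ℝ) 0 (-1) where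
  i := β
  j := γ
  k := β * γ
  i_mul_i := by rw [hβ]; simp
  j_mul_j := by rw [hγ]; simp
  i_mul_j := rfl
  j_mul_i := by rw [hβγ]; simp

theorem W_map {n : ℕ} {φ : ℍ[ℝ] →ₗ[ℝ] ℍ[ℝ]} (τ : ℍ[ℝ] ≃ₐ[ℝ] ℍ[ℝ])
    (h : ∀ x, φ (τ x) = τ (φ₀ x)) (α : ℍ[ℝ]) (A : Matrix (Fin n) (Fin n) ℍ[ℝ]) :
    W φ (τ α) (A.map τ) = τ '' W φ₀ α A := by
  have key : ∀ x : Fin n → ℍ[ℝ], form φ (A.map τ) (fun i => τ (x i)) (fun i => τ (x i)) =
      τ (form φ₀ A x x) := by
    intro x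
    simp only [form, map_sum, map_mul, h, Matrix.map_apply]
  have key2 : ∀ x : Fin n → ℍ[ℝ], ∑ i, φ (τ (x i)) * τ (x i) = τ (∑ i, φ₀ (x i) * x i) := by
    intro x
    simp only [map_sum, map_mul, h]
  ext w
  constructor
  · rintro ⟨x, hx, rfl⟩
    have hx' : x = fun i => τ (τ.symm (x i)) := by ext1 i; simp
    refine ⟨form φ₀ A (fun i => τ.symm (x i)) (fun i => τ.symm (x i)),
      ⟨fun i => τ.symm (x i), ?_, rfl⟩, ?_⟩
    · apply τ.injective
      rw [← key2, ← hx]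
      simp
    · rw [← key, ← hx']
  · rintro ⟨_, ⟨x, hx, rfl⟩, rfl⟩
    refine ⟨fun i => τ (x i), ?_, (key x).symm⟩
    rw [key2, hx]

theorem bounded_iff_map {n : ℕ} {φ : ℍ[ℝ] →ₗ[ℝ] ℍ[ℝ]} (τ : ℍ[ℝ] ≃ₐ[ℝ] ℍ[ℝ])
    (h : ∀ x, φ (τ x) = τ (φ₀ x)) (α : ℍ[ℝ]) (A : Matrix (Fin n) (Fin n) ℍ[ℝ]) :
    Bornology.IsBounded (W φ (τ α) (A.map τ)) ↔ Bornology.IsBounded (W φ₀ α A) := by
  rw [W_map τ h]
  constructor
  · intro hb
    have h1 := (LinearMap.toContinuousLinearMap τ.symm.toLinearMap).lipschitz.isBounded_image hb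
    have h2 : (LinearMap.toContinuousLinearMap τ.symm.toLinearMap) '' (τ '' W φ₀ α A) =
        W φ₀ α A := by
      rw [Set.image_image]
      simp
    rwa [h2] at h1
  · intro hb
    exact (LinearMap.toContinuousLinearMap τ.toLinearMap).lipschitz.isBounded_image hb

/-- Every negated unit `β` is the image of `i` under an automorphism carrying `φ₀` to `φ`. -/
theorem exists_equiv (hφ : IsNonstandard φ) {β : ℍ[ℝ]} (hβ : β * β = -1) (hφβ : φ β = -β) :
    ∃ τ : ℍ[ℝ] ≃ₐ[ℝ] ℍ[ℝ], τ qi = β ∧ ∀ x, φ (τ x) = τ (φ₀ x) := by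
  obtain ⟨γ, hγ, hφγ, hanti⟩ := exists_gamma hφ
  have hβγ := hanti β hβ hφβ
  let B := basisOf hβ hγ hβγ
  let f : ℍ[ℝ] →ₐ[ℝ] ℍ[ℝ] := B.liftHom
  have hf : ∀ x : ℍ[ℝ], f x = x.re • 1 + x.imI • β + x.imJ • γ + x.imK • (β * γ) := by
    intro x
    have : f x = algebraMap ℝ _ x.re + x.imI • β + x.imJ • γ + x.imK • (β * γ) := rfl
    rw [this, Algebra.algebraMap_eq_smul_one]
  have hinj : Function.Injective f := (f : ℍ[ℝ] →+* ℍ[ℝ]).injective
  have hsurj : Function.Surjective f :=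
    (LinearMap.injective_iff_surjective (f := f.toLinearMap)).mp hinj
  refine ⟨AlgEquiv.ofBijective f ⟨hinj, hsurj⟩, ?_, ?_⟩
  · rw [AlgEquiv.coe_ofBijective, hf]
    simp
  · intro x
    rw [AlgEquiv.coe_ofBijective, hf, hf]
    simp only [map_add, map_smul, hφ.mul, φ_one hφ, hφβ, hφγ, φ₀_re, φ₀_imI, φ₀_imJ, φ₀_imK]
    rw [hβγ, mul_neg]
    module

end general

/-- **Theorem.** For a nonstandard involution `φ` and a nonzero `α ∈ Inv φ`: the numerical range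
`W_φ^{(α)}(A)` is bounded for every `1 × 1` matrix; for a `2 × 2` matrix iff `A` is in an explicit
four-parameter family; for `n ≥ 3` iff `A` is a real multiple of the identity. -/
theorem result (φ : ℍ[ℝ] →ₗ[ℝ] ℍ[ℝ]) (hφ : IsNonstandard φ) (α : ℍ[ℝ]) (hα : φ α = α)
    (h0 : α ≠ 0) :
    (∀ A : Matrix (Fin 1) (Fin 1) ℍ[ℝ], Bornology.IsBounded (W φ α A)) ∧
    (∀ A : Matrix (Fin 2) (Fin 2) ℍ[ℝ], Bornology.IsBounded (W φ α A) ↔
      ∃ β : ℍ[ℝ], β * β = -1 ∧ φ β = -β ∧ ∃ c₀ c₁ c₂ c₃ : ℝ, A =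
        !![c₀ • 1 + c₁ • β, -(c₂ • 1 + c₃ • β); c₂ • 1 - c₃ • β, c₀ • 1 - c₁ • β]) ∧
    (∀ n : ℕ, 3 ≤ n → ∀ A : Matrix (Fin n) (Fin n) ℍ[ℝ],
      Bornology.IsBounded (W φ α A) ↔ ∃ a : ℝ, A = a • (1 : Matrix (Fin n) (Fin n) ℍ[ℝ])) := by
  obtain ⟨β, hβ, hφβ⟩ := exists_beta hφ
  have reduce : ∀ (β : ℍ[ℝ]) (hβ : β * β = -1) (hφβ : φ β = -β), ∃ (τ : ℍ[ℝ] ≃ₐ[ℝ] ℍ[ℝ]) (α₀ : ℍ[ℝ]),
      τ qi = β ∧ α₀.imI = 0 ∧ α₀ ≠ 0 ∧ τ α₀ = α ∧ ∀ (n : ℕ) (A : Matrix (Fin n) (Fin n) ℍ[ℝ]),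
        Bornology.IsBounded (W φ α A) ↔ Bornology.IsBounded (W φ₀ α₀ (A.map τ.symm)) := by
    intro β hβ hφβ
    obtain ⟨τ, hτ, h⟩ := exists_equiv hφ hβ hφβ
    refine ⟨τ, τ.symm α, hτ, ?_, ?_, by simp, ?_⟩
    · have h1 : φ₀ (τ.symm α) = τ.symm α := by
        apply τ.injective
        rw [← h]
        simp [hα]
      have h2 := congrArg QuaternionAlgebra.imI h1
      simp only [φ₀_imI] at h2
      linarith
    · intro h1
      apply h0
      rw [← τ.apply_symm_apply α, h1, map_zero]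
    · intro n A
      have h1 := bounded_iff_map τ h (τ.symm α) (A.map τ.symm)
      have h2 : (A.map τ.symm).map τ = A := by
        ext1 i j
        simp
      rwa [h2, τ.apply_symm_apply] at h1
  obtain ⟨τ, α₀, hτ, hα₀, hα₀', hτα, hiff⟩ := reduce β hβ hφβ
  refine ⟨?_, ?_, ?_⟩
  · intro A
    rw [hiff]
    exact bounded_one _ _
  · intro A
    constructor
    · intro hb
      rw [hiff] at hb
      obtain ⟨c₀, c₁, c₂, c₃, hA⟩ := two_of_bounded _ hα₀ hα₀' hb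
      refine ⟨β, hβ, hφβ, c₀, c₁, c₂, c₃, ?_⟩
      have h2 : A = (A.map τ.symm).map τ := by
        ext1 i j
        simp
      rw [h2, hA]
      ext1 i j
      fin_cases i <;> fin_cases j <;> simp [two, hτ]
    · rintro ⟨β', hβ', hφβ', c₀, c₁, c₂, c₃, rfl⟩
      obtain ⟨τ', α₁, hτ', hα₁, hα₁', hτα', hiff'⟩ := reduce β' hβ' hφβ'
      rw [hiff']
      have h1 : (!![c₀ • 1 + c₁ • β', -(c₂ • 1 + c₃ • β'); c₂ • 1 - c₃ • β', c₀ • 1 - c₁ • β'] :
          Matrix (Fin 2) (Fin 2) ℍ[ℝ]).map τ'.symm = two qi c₀ c₁ c₂ c₃ := by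
        have h3 : τ'.symm β' = qi := by rw [← hτ', τ'.symm_apply_apply]
        ext1 i j
        fin_cases i <;> fin_cases j <;> simp [two, h3]
      rw [h1]
      exact bounded_two _ _ _ _ _
  · intro n hn A
    constructor
    · intro hb
      rw [hiff] at hb
      obtain ⟨r, hr⟩ := scalar_of_three _ hα₀ hα₀' hb (a := (⟨0, by omega⟩ : Fin n))
        (b := ⟨1, by omega⟩) (c := ⟨2, by omega⟩) (by simp) (by simp) (by simp)
      refine ⟨r, ?_⟩
      have h2 : A = (A.map τ.symm).map τ := by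
        ext1 i j
        simp
      rw [h2, hr]
      ext1 i j
      by_cases hij : i = j
      · subst hij; simp
      · simp [hij]
    · rintro ⟨r, rfl⟩
      rw [hiff]
      have h1 : (r • (1 : Matrix (Fin n) (Fin n) ℍ[ℝ])).map τ.symm =
          r • (1 : Matrix (Fin n) (Fin n) ℍ[ℝ]) := by
        ext1 i j
        by_cases hij : i = j
        · subst hij; simp
        · simp [hij]
      rw [h1]
      exact bounded_smul_one _ _

end Pool.Agent.Results.MP_dceaed_al.BoundedRange
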